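import Mathlib

set_option autoImplicit false
open Set Filter Topology

namespace Pool.Agent.H.MP_0b6b0e_gt

/-- local support line at x -/
def LS (g : ℝ → ℝ) (x : ℝ) : Prop := ∃ c, ∀ᶠ y in 𝓝 x, g x + c * (y - x) ≤ g y

lemma lc {g : ℝ → ℝ} (hc : Continuous g) (h : ∀ x, LS g x) : ConvexOn ℝ univ g := by
  refine convexOn_of_slope_mono_adjacent convex_univ fun {x y z} _ _ hxy hyz => ?_
  by_contra hn
  push Not at hn
  set m := (g z - g x) / (z - x) with hm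
  let f : ℝ → ℝ := fun t => g t - (g x + m * (t - x))
  have hf : Continuous f := by fun_prop
  have hxz : 0 < z - x := by linarith
  have fz : f z = 0 := by simp only [f, hm]; field_simp; ring
  have fx : f x = 0 := by simp [f]
  have fy : 0 < f y := by
    rw [div_lt_div_iff₀ (by linarith) (by linarith)] at hn
    have : m * (y - x) < g y - g x := by
      rw [hm, div_mul_eq_mul_div, div_lt_iff₀ hxz]; nlinarith
    simp only [f]; linarith
  obtain ⟨w, hw, hM⟩ := isCompact_Icc.exists_isMaxOn (nonempty_Icc.2 (hxy.trans hyz).le)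
    hf.continuousOn
  have hS : IsCompact (Icc x z ∩ f ⁻¹' {f w}) :=
    isCompact_Icc.inter_right (isClosed_singleton.preimage hf)
  obtain ⟨s, ⟨hs, hs'⟩, hl⟩ := hS.exists_isLeast ⟨w, hw, rfl⟩
  have hs' : f s = f w := hs'
  have hy : f y ≤ f w := hM ⟨hxy.le, hyz.le⟩
  have s1 : x < s := hs.1.lt_of_ne fun e => by rw [← e] at hs'; linarith
  have s2 : s < z := hs.2.lt_of_ne fun e => by rw [e] at hs'; linarith
  obtain ⟨c, hc⟩ := h s
  have e1 : ∀ᶠ t in 𝓝[<] s, g s + c * (t - s) ≤ g t ∧ t ∈ Ioo x s :=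
    (hc.filter_mono nhdsWithin_le_nhds).and (Ioo_mem_nhdsLT s1)
  have e2 : ∀ᶠ t in 𝓝[>] s, g s + c * (t - s) ≤ g t ∧ t ∈ Ioo s z :=
    (hc.filter_mono nhdsWithin_le_nhds).and (Ioo_mem_nhdsGT s2)
  obtain ⟨t, ht, t1, t2⟩ := e1.exists
  obtain ⟨r, hr, r1, r2⟩ := e2.exists
  have a1 : f t ≤ f w := hM ⟨t1.le, by linarith⟩
  have a2 : f t ≠ f w := fun e => by
    have := hl ⟨⟨t1.le, by linarith⟩, e⟩
    linarith
  have a3 : f r ≤ f w := hM ⟨by linarith, r2.le⟩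
  have a4 : f t < f s := by rw [hs']; exact a1.lt_of_ne a2
  rw [← hs'] at a3
  simp only [f] at a3 a4
  have b1 : 0 < (c - m) * (s - t) := by nlinarith
  have b2 : 0 < c - m := by
    by_contra k
    nlinarith
  nlinarith

lemma sub {f : ℝ → ℝ} (hf : ConvexOn ℝ univ f) (x : ℝ) :
    ∃ c, ∀ y, f x + c * (y - x) ≤ f y := by
  let S := (fun y => (f y - f x) / (y - x)) '' Ioi x
  have hne : S.Nonempty := ⟨_, x + 1, by simp, rfl⟩
  have hb : ∀ y < x, (f x - f y) / (x - y) ∈ lowerBounds S := by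
    rintro y hy _ ⟨z, hz, rfl⟩
    exact hf.slope_mono_adjacent (mem_univ _) (mem_univ _) hy hz
  refine ⟨sInf S, fun y => ?_⟩
  rcases lt_trichotomy y x with h | rfl | h
  · have := le_csInf hne (hb y h)
    rw [div_le_iff₀ (by linarith)] at this
    linarith
  · simp
  · have := csInf_le ⟨_, hb (x - 1) (by linarith)⟩ (⟨y, h, rfl⟩ : _ ∈ S)
    simp only at this
    rw [le_div_iff₀ (by linarith)] at this
    linarith

lemma ls_of {g f : ℝ → ℝ} {x : ℝ} (hf : LS f x) (e : g x = f x) (h : ∀ᶠ y in 𝓝 x, f y ≤ g y) :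
    LS g x := by
  obtain ⟨c, hc⟩ := hf
  refine ⟨c, ?_⟩
  filter_upwards [hc, h] with y a b
  linarith

lemma ls_conv {f : ℝ → ℝ} (hf : ConvexOn ℝ univ f) (x : ℝ) : LS f x :=
  let ⟨c, h⟩ := sub hf x
  ⟨c, Eventually.of_forall h⟩

lemma ls_aff (k m x : ℝ) : LS (fun y => k + m * y) x :=
  ⟨m, Eventually.of_forall fun y => by linarith⟩

lemma chord {z r w ξ : ℝ} (h1 : r ≤ z) (h2 : z ≤ w) (hz : 0 < 1 + z * ξ) (hr : 0 < 1 + r * ξ)
    (hw : 0 < 1 + w * ξ) :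
    1 / (1 + z * ξ) ≤ 1 / (1 + r * ξ) - ξ * (z - r) / ((1 + r * ξ) * (1 + w * ξ)) := by
  have : 1 / (1 + r * ξ) - ξ * (z - r) / ((1 + r * ξ) * (1 + w * ξ)) - 1 / (1 + z * ξ) =
      ξ ^ 2 * ((z - r) * (w - z)) / ((1 + r * ξ) * (1 + w * ξ) * (1 + z * ξ)) := by
    have : 1 + ξ * w ≠ 0 := by rw [mul_comm]; exact hw.ne'
    have : 1 + ξ * z ≠ 0 := by rw [mul_comm]; exact hz.ne'
    field_simp; ring
  have h : 0 ≤ ξ ^ 2 * ((z - r) * (w - z)) / ((1 + r * ξ) * (1 + w * ξ) * (1 + z * ξ)) := by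
    have := mul_nonneg (sub_nonneg.2 h1) (sub_nonneg.2 h2)
    positivity
  linarith

lemma alg {a b c A p q r w ξ : ℝ} (ha : 0 ≤ a) (hb : 0 ≤ b) (hA : A = a + b - c)
    (hw : A * w = a * p + b * q - c * r) (h1 : r ≤ p) (h2 : r ≤ q) (h3 : p ≤ w) (h4 : q ≤ w)
    (kp : 0 < 1 + p * ξ) (kq : 0 < 1 + q * ξ) (kr : 0 < 1 + r * ξ) (kw : 0 < 1 + w * ξ) :
    a / (1 + p * ξ) + b / (1 + q * ξ) - c / (1 + r * ξ) ≤ A / (1 + w * ξ) := by
  have c1 := mul_le_mul_of_nonneg_left (chord h1 h3 kp kr kw) ha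
  have c2 := mul_le_mul_of_nonneg_left (chord h2 h4 kq kr kw) hb
  have : a * (1 / (1 + r * ξ) - ξ * (p - r) / ((1 + r * ξ) * (1 + w * ξ))) +
      b * (1 / (1 + r * ξ) - ξ * (q - r) / ((1 + r * ξ) * (1 + w * ξ))) =
      c / (1 + r * ξ) + A / (1 + w * ξ) := by
    have : 1 + ξ * w ≠ 0 := by rw [mul_comm]; exact kw.ne'
    field_simp
    subst hA
    linear_combination (ξ) * hw
  rw [mul_one_div] at c1 c2
  linarith

/-- hypotheses on the pair of convex functions -/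
structure Hyp (u v : ℝ → ℝ) : Prop where
  cu : ConvexOn ℝ univ u
  cv : ConvexOn ℝ univ v
  pu : ∀ x, 0 < u x
  pv : ∀ x, 0 < v x
  nu : ∀ x ∈ Icc (-2 : ℝ) 2, |u x - 7 / 8| ≤ 1 / 10 ^ 6
  nv : ∀ x ∈ Icc (-2 : ℝ) 2, |v x - max 1 (1 + (|x| - 1) / 10)| ≤ 1 / 10 ^ 6

lemma cont {f : ℝ → ℝ} (hf : ConvexOn ℝ univ f) : Continuous f :=
  continuousOn_univ.1 (hf.continuousOn isOpen_univ)

lemma neg_conv {f : ℝ → ℝ} (hf : ConvexOn ℝ univ f) : ConvexOn ℝ univ fun x => f (-x) := by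
  refine ⟨convex_univ, fun x _ y _ a b ha hb e => ?_⟩
  have := hf.2 (mem_univ (-x)) (mem_univ (-y)) ha hb e
  simp only [smul_eq_mul] at this ⊢
  rwa [show -(a * x + b * y) = a * -x + b * -y by ring]

lemma Hyp.neg {u v : ℝ → ℝ} (h : Hyp u v) : Hyp (fun x => u (-x)) (fun x => v (-x)) where
  cu := neg_conv h.cu
  cv := neg_conv h.cv
  pu := fun _ => h.pu _
  pv := fun _ => h.pv _
  nu := fun x hx => h.nu _ ⟨by linarith [hx.2], by linarith [hx.1]⟩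
  nv := fun x hx => by simpa using h.nv (-x) ⟨by linarith [hx.2], by linarith [hx.1]⟩

lemma Hyp.bd {u v : ℝ → ℝ} (h : Hyp u v) {x : ℝ} (hx : x ∈ Icc (-2 : ℝ) 2) :
    7 / 8 - 1 / 10 ^ 6 ≤ u x ∧ u x ≤ 7 / 8 + 1 / 10 ^ 6 ∧ 1 - 1 / 10 ^ 6 ≤ v x ∧
    (9 + x) / 10 - 1 / 10 ^ 6 ≤ v x ∧ (9 - x) / 10 - 1 / 10 ^ 6 ≤ v x ∧
    v x ≤ 11 / 10 + 1 / 10 ^ 6 ∧ (x ∈ Icc (-1 : ℝ) 1 → v x ≤ 1 + 1 / 10 ^ 6) := by
  have a := abs_le.1 (h.nu x hx)
  have b := abs_le.1 (h.nv x hx)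
  have c := le_max_left 1 (1 + (|x| - 1) / 10)
  have d := le_max_right 1 (1 + (|x| - 1) / 10)
  have e : |x| ≤ 2 := abs_le.2 hx
  have f : max 1 (1 + (|x| - 1) / 10) ≤ 11 / 10 := max_le (by norm_num) (by linarith)
  refine ⟨by linarith [a.1], by linarith [a.2], by linarith [b.1],
    by linarith [b.1, le_abs_self x], by linarith [b.1, neg_abs_le x], by linarith [b.2],
    fun g => ?_⟩
  have : max 1 (1 + (|x| - 1) / 10) ≤ 1 := max_le le_rfl (by linarith [abs_le.2 g])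
  linarith [b.2]

lemma posA {u v l : ℝ} (hu : 0 < u) (hu' : u ≤ 1) (hv : 0 < v) (hv' : v ≤ 6 / 5)
    (hl : 4 / 5 ≤ l) : 0 < 1 / u + 1 / v - 1 / l := by
  have a : 1 ≤ 1 / u := by rw [le_div_iff₀ hu]; linarith
  have b : 5 / 6 ≤ 1 / v := by rw [le_div_iff₀ hv]; linarith
  have c : 1 / l ≤ 5 / 4 := by rw [div_le_iff₀ (by linarith)]; linarith
  linarith

lemma wle {a b c A P Q R w : ℝ} (hA : 0 < A) (hAd : A = a + b - c)
    (hw : A * w = a * P + b * Q - c * R) (a0 : 0 ≤ a) (b0 : 0 ≤ b) (r0 : R ≤ -1 / 20)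
    (r1 : -1 / 10 ^ 4 ≤ P) (r2 : R ≤ Q) (r3 : Q ≤ 1 / 10 ^ 4) (r4 : b ≤ c) (r5 : a ≤ 2)
    (r6 : 1 / 2 ≤ c) : P ≤ w ∧ Q ≤ w := by
  constructor
  · have : 0 ≤ A * (w - P) := by
      rw [mul_sub, hw, hAd]
      nlinarith [mul_nonneg (sub_nonneg.2 r4) (show 0 ≤ P - R by linarith),
        mul_nonneg b0 (sub_nonneg.2 r2)]
    nlinarith
  · have : 0 ≤ A * (w - Q) := by
      have e : A * (w - Q) = a * (P - Q) + c * (Q - R) := by
        rw [mul_sub, hw, hAd]; ring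
      rw [e]
      rcases le_total Q P with g | g
      · have := mul_nonneg a0 (sub_nonneg.2 g)
        have := mul_nonneg (show 0 ≤ c by linarith) (sub_nonneg.2 r2)
        linarith
      · nlinarith
    nlinarith

lemma core {u v : ℝ → ℝ} (cu : Continuous u) (cv : Continuous v) {k m x p q w : ℝ}
    (pu : 0 < u x) (pv : 0 < v x) (pl : 0 < k + m * x)
    (hp : ∀ y, u x + p * (y - x) ≤ u y) (hq : ∀ y, v x + q * (y - x) ≤ v y)
    (hA : 0 < 1 / u x + 1 / v x - 1 / (k + m * x))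
    (hw : (1 / u x + 1 / v x - 1 / (k + m * x)) * w =
      1 / u x * (p / u x) + 1 / v x * (q / v x) - 1 / (k + m * x) * (m / (k + m * x)))
    (h1 : m / (k + m * x) ≤ p / u x) (h2 : m / (k + m * x) ≤ q / v x) (w1 : p / u x ≤ w)
    (w2 : q / v x ≤ w) : LS (fun y => 1 / (1 / u y + 1 / v y - 1 / (k + m * y))) x := by
  refine ⟨w / (1 / u x + 1 / v x - 1 / (k + m * x)), ?_⟩
  have ev : ∀ z : ℝ, ∀ᶠ y in 𝓝 x, 0 < 1 + z * (y - x) := fun z =>
    continuousAt_const.eventually_lt (by fun_prop) (by simp)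
  have evA : ∀ᶠ y in 𝓝 x, 0 < 1 / u y + 1 / v y - 1 / (k + m * y) := by
    refine continuousAt_const.eventually_lt ?_ hA
    have := cu.continuousAt (x := x)
    have := cv.continuousAt (x := x)
    fun_prop (disch := positivity)
  filter_upwards [ev (p / u x), ev (q / v x), ev (m / (k + m * x)), ev w, evA] with y kp kq kr kw kA
  have main := alg (by positivity) (by positivity) rfl hw h1 h2 w1 w2 kp kq kr kw
  have e0 : ∀ {a b c : ℝ}, 0 < a → 0 < 1 + b / a * (y - x) → a + b * (y - x) ≤ c →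
      1 / c ≤ 1 / a / (1 + b / a * (y - x)) := by
    intro a b c ha hb hc
    rw [div_div]
    refine one_div_le_one_div_of_le (mul_pos ha hb) (le_trans (le_of_eq ?_) hc)
    field_simp
  have e1 := e0 pu kp (hp y)
  have e2 := e0 pv kq (hq y)
  have e3 : 1 / (k + m * y) = 1 / (k + m * x) / (1 + m / (k + m * x) * (y - x)) := by
    rw [div_div]; congr 1
    rw [mul_add, ← mul_assoc, mul_div_cancel₀ _ pl.ne']; ring
  have e5 := one_div_le_one_div_of_le kA (le_trans (by linarith) main)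
  refine le_trans (le_of_eq ?_) e5
  generalize 1 / u x + 1 / v x - 1 / (k + m * x) = A at hA
  field_simp

lemma half {u v : ℝ → ℝ} (h : Hyp u v) {k m t0 x : ℝ} (hk : |k - 14 / 15| ≤ 1 / 10 ^ 4)
    (hm : |m + 1 / 15| ≤ 1 / 10 ^ 4) (ht : k + m * t0 = v t0) (hl : k + m * x ≤ v x)
    (h0 : -3 / 2 ≤ t0) (h1 : t0 < x) (h2 : x ≤ 1 / 2) :
    LS (fun y => 1 / (1 / u y + 1 / v y - 1 / (k + m * y))) x := by
  obtain ⟨p, hp⟩ := sub h.cu x
  obtain ⟨q, hq⟩ := sub h.cv x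
  have hk := abs_le.1 hk
  have hm := abs_le.1 hm
  obtain ⟨x1, x2, x3, -, -, x4, -⟩ := h.bd (x := x) ⟨by linarith, by linarith⟩
  have l1 : 4 / 5 ≤ k + m * x := by nlinarith
  have l2 : k + m * x ≤ 11 / 10 := by nlinarith
  have p1 : -1 / 10 ^ 5 ≤ p := by
    have := hp (-2)
    have := (h.bd (x := -2) ⟨le_rfl, by norm_num⟩).2.1
    nlinarith
  have q1 : q ≤ 1 / 10 ^ 5 := by
    have := hq 1
    have := (h.bd (x := 1) ⟨by norm_num, by norm_num⟩).2.2.2.2.2.2 ⟨by norm_num, le_rfl⟩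
    nlinarith
  have q2 : m ≤ q := by
    have := hq t0
    nlinarith
  have pu := h.pu x
  have pv := h.pv x
  have pl : 0 < k + m * x := by linarith
  have hA := posA pu (by linarith) pv (by linarith) l1
  have r0 : m / (k + m * x) ≤ -1 / 20 := by rw [div_le_iff₀ pl]; linarith
  have r1 : -1 / 10 ^ 4 ≤ p / u x := by rw [le_div_iff₀ pu]; linarith
  have r2 : m / (k + m * x) ≤ q / v x := by rw [div_le_div_iff₀ pl pv]; nlinarith
  have r3 : q / v x ≤ 1 / 10 ^ 4 := by rw [div_le_iff₀ pv]; linarith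
  have r4 : 1 / v x ≤ 1 / (k + m * x) := one_div_le_one_div_of_le pl hl
  have r5 : 1 / u x ≤ 2 := by rw [div_le_iff₀ pu]; linarith
  have r6 : 1 / 2 ≤ 1 / (k + m * x) := by rw [le_div_iff₀ pl]; linarith
  have hw := mul_div_cancel₀ (1 / u x * (p / u x) + 1 / v x * (q / v x) -
    1 / (k + m * x) * (m / (k + m * x))) hA.ne'
  obtain ⟨w1, w2⟩ := wle hA rfl hw (by positivity) (by positivity) r0 r1 r2 r3 r4 r5 r6
  exact core (cont h.cu) (cont h.cv) pu pv pl hp hq hA hw (by linarith) r2 w1 w2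

end Pool.Agent.H.MP_0b6b0e_gt
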