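import Pool.Agent.H.MP_0b6b0e_gt.A

set_option autoImplicit false
open Set Filter Topology

namespace Pool.Agent.H.MP_0b6b0e_gt

lemma lin {k m a x : ℝ} (hk : |k - 14 / 15| ≤ 1 / 10 ^ 4) (hm : |m - a| ≤ 1 / 10 ^ 4)
    (ha : |a| ≤ 1 / 15) (hx : |x| ≤ 3 / 2) : 4 / 5 ≤ k + m * x := by
  have hk := abs_le.1 hk
  have h1 : |m| ≤ 1 / 15 + 1 / 10 ^ 4 := by
    have := abs_sub_abs_le_abs_sub m a
    linarith
  have h2 : |m * x| ≤ (1 / 15 + 1 / 10 ^ 4) * (3 / 2) := by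
    rw [abs_mul]; gcongr
  linarith [hk.1, neg_abs_le (m * x)]

lemma side {u v U : ℝ → ℝ} (h : Hyp u v) {k0 m0 k1 m1 t0 s t1 : ℝ}
    (hk0 : |k0 - 14 / 15| ≤ 1 / 10 ^ 4) (hm0 : |m0 + 1 / 15| ≤ 1 / 10 ^ 4)
    (hk1 : |k1 - 14 / 15| ≤ 1 / 10 ^ 4) (hm1 : |m1 - 1 / 15| ≤ 1 / 10 ^ 4)
    (a0 : -3 / 2 ≤ t0) (a1 : t0 < s) (a2 : -1 / 2 < s) (a3 : s < 1 / 2) (a4 : s < t1)
    (a5 : t1 ≤ 3 / 2) (l0 : ∀ x ∈ Icc (-2 : ℝ) 2, k0 + m0 * x ≤ v x)
    (l1 : ∀ x ∈ Icc (-2 : ℝ) 2, k1 + m1 * x ≤ v x) (e0 : k0 + m0 * t0 = v t0)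
    (hD : ∀ x ∈ Icc (-1 / 2 : ℝ) (1 / 2),
      1 / u x + 1 / v x - 1 / (k0 + m0 * x) ≤ 1 / (k1 + m1 * x))
    (U1 : ∀ x ≤ t0, U x = u x)
    (U2 : ∀ x ∈ Icc t0 s, U x = 1 / (1 / u x + 1 / v x - 1 / (k0 + m0 * x)))
    (U3 : ∀ x ∈ Icc s t1, U x = k1 + m1 * x) (U4 : ∀ x, t1 ≤ x → U x = v x) :
    ConvexOn ℝ univ U ∧ ∀ x, 0 < U x := by
  have L0 : ∀ x ∈ Icc (-3 / 2 : ℝ) (3 / 2), 4 / 5 ≤ k0 + m0 * x := fun x hx =>
    lin (a := -1 / 15) hk0 (by convert hm0 using 2; ring) (by norm_num [abs_le])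
      (abs_le.2 ⟨by linarith [hx.1], hx.2⟩)
  have L1 : ∀ x ∈ Icc (-3 / 2 : ℝ) (3 / 2), 4 / 5 ≤ k1 + m1 * x := fun x hx =>
    lin hk1 hm1 (by norm_num [abs_le]) (abs_le.2 ⟨by linarith [hx.1], hx.2⟩)
  have hA : ∀ x ∈ Icc (-3 / 2 : ℝ) (3 / 2), 0 < 1 / u x + 1 / v x - 1 / (k0 + m0 * x) := by
    intro x hx
    obtain ⟨-, x2, -, -, -, x4, -⟩ := h.bd (x := x) ⟨by linarith [hx.1], by linarith [hx.2]⟩
    exact posA (h.pu x) (by linarith) (h.pv x) (by linarith) (L0 x hx)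
  have cu := cont h.cu
  have cv := cont h.cv
  constructor
  · refine lc ?_ fun x => ?_
    · rw [← continuousOn_univ]
      have e : (univ : Set ℝ) = ((Iic t0 ∪ Icc t0 s) ∪ Icc s t1) ∪ Ici t1 := by
        ext x; simp only [mem_univ, mem_union, mem_Iic, mem_Icc, mem_Ici, true_iff]
        by_cases b1 : x ≤ t0
        · tauto
        by_cases b2 : x ≤ s
        · exact .inl (.inl (.inr ⟨by linarith, b2⟩))
        by_cases b3 : x ≤ t1
        · exact .inl (.inr ⟨by linarith, b3⟩)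
        · exact .inr (by linarith)
      rw [e]
      refine ContinuousOn.union_of_isClosed (ContinuousOn.union_of_isClosed
        (ContinuousOn.union_of_isClosed (cu.continuousOn.congr U1) (.congr ?_ U2) isClosed_Iic
        isClosed_Icc) (.congr (by fun_prop) U3) (isClosed_Iic.union isClosed_Icc) isClosed_Icc)
        (cv.continuousOn.congr U4) ((isClosed_Iic.union isClosed_Icc).union isClosed_Icc)
        isClosed_Ici
      intro x hx
      have g1 := hA x ⟨by linarith [hx.1], by linarith [hx.2]⟩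
      have g2 := L0 x ⟨by linarith [hx.1], by linarith [hx.2]⟩
      have := h.pu x
      have := h.pv x
      have := cu.continuousAt (x := x)
      have := cv.continuousAt (x := x)
      refine ContinuousAt.continuousWithinAt ?_
      fun_prop (disch := positivity)
    rcases le_or_gt x t0 with b1 | b1
    · refine ls_of (ls_conv h.cu x) (U1 x b1) ?_
      filter_upwards [Iio_mem_nhds (b1.trans_lt a1)] with y hy
      rcases le_total y t0 with c | c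
      · exact (U1 y c).ge
      · have hy : y < s := hy
        rw [U2 y ⟨c, hy.le⟩, le_one_div (h.pu y) (hA y ⟨by linarith, by linarith⟩)]
        have := one_div_le_one_div_of_le
          (lt_of_lt_of_le (by norm_num) (L0 y ⟨by linarith, by linarith⟩))
          (l0 y ⟨by linarith, by linarith⟩)
        linarith
    rcases lt_or_ge x s with b2 | b2
    · refine ls_of (half h hk0 hm0 e0 (l0 x ⟨by linarith, by linarith⟩) a0 b1 (by linarith))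
        (U2 x ⟨b1.le, b2.le⟩) ?_
      filter_upwards [Ioo_mem_nhds b1 b2] with y hy
      exact (U2 y ⟨hy.1.le, hy.2.le⟩).ge
    rcases le_or_gt x t1 with b3 | b3
    · refine ls_of (ls_aff k1 m1 x) (U3 x ⟨b2, b3⟩) ?_
      filter_upwards [Ioi_mem_nhds b1, Ioo_mem_nhds (show -1 / 2 < x by linarith)
        (show x < 2 by linarith)] with y hy hy'
      have hy : t0 < y := hy
      obtain ⟨y1, y2⟩ := hy'
      rcases le_total y s with c | c
      · rw [U2 y ⟨hy.le, c⟩, le_one_div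
          (lt_of_lt_of_le (by norm_num) (L1 y ⟨by linarith, by linarith⟩))
          (hA y ⟨by linarith, by linarith⟩)]
        exact hD y ⟨by linarith, by linarith⟩
      rcases le_total y t1 with d | d
      · exact (U3 y ⟨c, d⟩).ge
      · rw [U4 y d]; exact l1 y ⟨by linarith, by linarith⟩
    · refine ls_of (ls_conv h.cv x) (U4 x b3.le) ?_
      filter_upwards [Ioi_mem_nhds b3] with y hy
      exact (U4 y (le_of_lt hy)).ge
  · intro x
    rcases le_or_gt x t0 with b1 | b1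
    · rw [U1 x b1]; exact h.pu x
    rcases lt_or_ge x s with b2 | b2
    · rw [U2 x ⟨b1.le, b2.le⟩]; exact one_div_pos.2 (hA x ⟨by linarith, by linarith⟩)
    rcases le_or_gt x t1 with b3 | b3
    · rw [U3 x ⟨b2, b3⟩]; exact lt_of_lt_of_le (by norm_num) (L1 x ⟨by linarith, by linarith⟩)
    · rw [U4 x b3.le]; exact h.pv x

lemma K1 {u v l x : ℝ} (hx : x ∈ Icc (-1 / 2 : ℝ) (1 / 2)) (hu : 7 / 8 - 1 / 10 ^ 6 ≤ u)
    (hv : 1 - 1 / 10 ^ 6 ≤ v) (hl : l ≤ (14 - x) / 15 + 1 / 10 ^ 6) (pl : 0 < l)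
    (hA : 0 < 1 / u + 1 / v - 1 / l) :
    (14 + x) / 15 + x ^ 2 / 200 - 1 / 10 ^ 5 ≤ 1 / (1 / u + 1 / v - 1 / l) := by
  obtain ⟨x1, x2⟩ := hx
  have a : 1 / u ≤ 8 / 7 + 2 / 10 ^ 6 := by rw [div_le_iff₀ (by linarith)]; linarith
  have b : 1 / v ≤ 1 + 2 / 10 ^ 6 := by rw [div_le_iff₀ (by linarith)]; linarith
  have c := one_div_le_one_div_of_le pl hl
  have pz : 0 < (14 + x) / 15 + x ^ 2 / 200 - 1 / 10 ^ 5 := by nlinarith
  rw [le_one_div pz hA]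
  have : 15 / 7 + 4 / 10 ^ 6 ≤ 1 / ((14 - x) / 15 + 1 / 10 ^ 6) +
      1 / ((14 + x) / 15 + x ^ 2 / 200 - 1 / 10 ^ 5) := by
    rw [div_add_div _ _ (by linarith) pz.ne', le_div_iff₀ (mul_pos (by linarith) pz)]
    nlinarith [mul_nonneg (sq_nonneg x) (show 0 ≤ x + 1 / 2 by linarith)]
  linarith

lemma K2 {u v l : ℝ} (pu : 0 < u) (hu : u ≤ 7 / 8 + 1 / 10 ^ 6) (pv : 0 < v)
    (hv : v ≤ 1 + 1 / 10 ^ 6) (hl : 14 / 15 - 1 / 10 ^ 6 ≤ l) :
    1 / (1 / u + 1 / v - 1 / l) ≤ 14 / 15 + 1 / 10 ^ 5 := by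
  have a : 8 / 7 - 2 / 10 ^ 6 ≤ 1 / u := by rw [le_div_iff₀ pu]; linarith
  have b : 1 - 2 / 10 ^ 6 ≤ 1 / v := by rw [le_div_iff₀ pv]; linarith
  have c : 1 / l ≤ 15 / 14 + 2 / 10 ^ 6 := by rw [div_le_iff₀ (by linarith)]; linarith
  rw [div_le_iff₀ (by linarith)]; linarith

lemma lines {u v : ℝ → ℝ} (h : Hyp u v) : ∃ k0 m0 k1 m1 t0 s t1 : ℝ,
    |k0 - 14 / 15| ≤ 1 / 10 ^ 4 ∧ |m0 + 1 / 15| ≤ 1 / 10 ^ 4 ∧
    |k1 - 14 / 15| ≤ 1 / 10 ^ 4 ∧ |m1 - 1 / 15| ≤ 1 / 10 ^ 4 ∧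
    -3 / 2 ≤ t0 ∧ t0 < s ∧ -1 / 2 < s ∧ s < 1 / 2 ∧ s < t1 ∧ t1 ≤ 3 / 2 ∧
    (∀ x ∈ Icc (-2 : ℝ) 2, k0 + m0 * x ≤ v x) ∧ (∀ x ∈ Icc (-2 : ℝ) 2, k1 + m1 * x ≤ v x) ∧
    k0 + m0 * t0 = v t0 ∧ k1 + m1 * t1 = v t1 ∧ (∀ x ∈ Icc (-1 / 2 : ℝ) (1 / 2),
      1 / u x + 1 / v x - 1 / (k0 + m0 * x) ≤ 1 / (k1 + m1 * x)) ∧
    1 / (1 / u s + 1 / v s - 1 / (k0 + m0 * s)) = k1 + m1 * s := by
  have cu := cont h.cu
  have cv := cont h.cv
  obtain ⟨t0, ht0, hm⟩ := isCompact_Icc.exists_isMinOn (nonempty_Icc.2 (by norm_num : (-2 : ℝ) ≤ 2))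
    (f := fun x => v x + x / 15) (by fun_prop)
  obtain ⟨k0, hk0⟩ : ∃ k0, k0 = v t0 + t0 / 15 := ⟨_, rfl⟩
  have l0 : ∀ x ∈ Icc (-2 : ℝ) 2, k0 + -1 / 15 * x ≤ v x := fun x hx => by
    have : v t0 + t0 / 15 ≤ v x + x / 15 := hm hx
    linarith
  obtain ⟨-, -, b1, -, b2, -⟩ := h.bd ht0
  have b3 := l0 (-1) ⟨by norm_num, by norm_num⟩
  have b4 := (h.bd (x := -1) ⟨by norm_num, by norm_num⟩).2.2.2.2.2.2 ⟨le_rfl, by norm_num⟩
  have k1 : 14 / 15 - 1 / 10 ^ 6 ≤ k0 := by linarith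
  have k2 : k0 ≤ 14 / 15 + 1 / 10 ^ 6 := by linarith
  obtain ⟨W, hW⟩ : ∃ W : ℝ → ℝ, W = fun x => 1 / (1 / u x + 1 / v x - 1 / (k0 + -1 / 15 * x)) :=
    ⟨_, rfl⟩
  have hA : ∀ x ∈ Icc (-1 / 2 : ℝ) (1 / 2), 0 < 1 / u x + 1 / v x - 1 / (k0 + -1 / 15 * x) := by
    intro x hx
    obtain ⟨-, x2, -, -, -, x4, -⟩ := h.bd (x := x) ⟨by linarith [hx.1], by linarith [hx.2]⟩
    exact posA (h.pu x) (by linarith) (h.pv x) (by linarith) (by linarith [hx.2])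
  have cW : ContinuousOn W (Icc (-1 / 2 : ℝ) (1 / 2)) := by
    intro x hx
    have g1 := hA x hx
    have g2 : 0 < k0 + -1 / 15 * x := by linarith [hx.2]
    have := h.pu x
    have := h.pv x
    have := cu.continuousAt (x := x)
    have := cv.continuousAt (x := x)
    refine ContinuousAt.continuousWithinAt ?_
    rw [hW]
    fun_prop (disch := positivity)
  have W1 : ∀ x ∈ Icc (-1 / 2 : ℝ) (1 / 2),
      (14 + x) / 15 + x ^ 2 / 200 - 1 / 10 ^ 5 ≤ W x := by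
    intro x hx
    obtain ⟨x1, -, x3, -⟩ := h.bd (x := x) ⟨by linarith [hx.1], by linarith [hx.2]⟩
    rw [hW]
    exact K1 hx x1 x3 (by linarith) (by linarith [hx.2]) (hA x hx)
  have W2 : W 0 ≤ 14 / 15 + 1 / 10 ^ 5 := by
    obtain ⟨-, x2, -, -, -, -, x4⟩ := h.bd (x := 0) ⟨by norm_num, by norm_num⟩
    rw [hW]
    exact K2 (h.pu 0) x2 (h.pv 0) (x4 ⟨by norm_num, by norm_num⟩) (by linarith)
  obtain ⟨⟨s, t⟩, ⟨hs, ht⟩, hc⟩ := (isCompact_Icc.prod isCompact_Icc).exists_isMinOn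
    (s := Icc (-1 / 2 : ℝ) (1 / 2) ×ˢ Icc (3 / 4 : ℝ) 2)
    ⟨(0, 1), by norm_num, by norm_num⟩
    (f := fun z => ((z.2 - 5 / 8) * W z.1 + (5 / 8 - z.1) * v z.2) / (z.2 - z.1)) (by
      refine ContinuousOn.div (.add (.mul (by fun_prop) (cW.comp continuousOn_fst fun z hz => hz.1))
        (by fun_prop)) (by fun_prop) fun z hz => ?_
      have := hz.1.2
      have := hz.2.1
      exact ne_of_gt (by linarith))
  obtain ⟨s1, s2⟩ : -1 / 2 ≤ s ∧ s ≤ 1 / 2 := hs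
  obtain ⟨t1, t2⟩ : 3 / 4 ≤ t ∧ t ≤ 2 := ht
  have hts : 0 < t - s := by linarith
  obtain ⟨m, hm⟩ : ∃ m, m = (v t - W s) / (t - s) := ⟨_, rfl⟩
  obtain ⟨k, hk⟩ : ∃ k, k = W s - m * s := ⟨_, rfl⟩
  have es : W s = k + m * s := by linarith
  have et : v t = k + m * t := by rw [hk, hm]; field_simp; ring
  have ec : ((t - 5 / 8) * W s + (5 / 8 - s) * v t) / (t - s) = k + m * (5 / 8) := by
    rw [es, et]; field_simp; ring
  have g1 : ∀ x ∈ Icc (-1 / 2 : ℝ) (1 / 2), k + m * x ≤ W x := by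
    intro x hx
    have := hc (show (x, t) ∈ _ from ⟨hx, t1, t2⟩)
    simp only [mem_ofPred_eq, ec] at this
    rw [le_div_iff₀ (by linarith [hx.2]), et] at this
    exact le_of_mul_le_mul_left (a := t - 5 / 8) (by linarith) (by linarith)
  have g2 : ∀ x ∈ Icc (3 / 4 : ℝ) 2, k + m * x ≤ v x := by
    intro x hx
    have := hc (show (s, x) ∈ _ from ⟨⟨s1, s2⟩, hx⟩)
    simp only [mem_ofPred_eq, ec] at this
    rw [le_div_iff₀ (by linarith [hx.1]), es] at this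
    exact le_of_mul_le_mul_left (a := 5 / 8 - s) (by linarith) (by linarith)
  obtain ⟨-, -, c1, c2, -⟩ := h.bd (x := t) ⟨by linarith, t2⟩
  have c3 := W1 s ⟨s1, s2⟩
  have c4 : (14 + 5 / 8) / 15 - 1 / 10 ^ 5 ≤ k + m * (5 / 8) := by
    rw [← ec, le_div_iff₀ hts]
    have d1 : (14 + s) / 15 - 1 / 10 ^ 5 ≤ W s := by linarith [sq_nonneg s]
    have d2 : (14 + t) / 15 - 1 / 10 ^ 5 ≤ v t := by linarith
    linarith [mul_le_mul_of_nonneg_left d1 (show 0 ≤ t - 5 / 8 by linarith),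
      mul_le_mul_of_nonneg_left d2 (show 0 ≤ 5 / 8 - s by linarith)]
  have c5 := g1 0 ⟨by norm_num, by norm_num⟩
  have c6 := g2 1 ⟨by norm_num, by norm_num⟩
  have c7 := (h.bd (x := 1) ⟨by norm_num, by norm_num⟩).2.2.2.2.2.2 ⟨by norm_num, le_rfl⟩
  have n1 : 14 / 15 - 3 / 10 ^ 5 ≤ k := by linarith
  have n2 : k ≤ 14 / 15 + 1 / 10 ^ 5 := by linarith
  have n3 : 1 / 15 - 4 / 10 ^ 5 ≤ m := by linarith
  have n4 : m ≤ 1 / 15 + 4 / 10 ^ 5 := by linarith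
  have m0 : 0 ≤ m := by linarith
  have n5 : s ^ 2 ≤ (1 / 10) ^ 2 := by
    have : (m - 1 / 15) * s ≤ 4 / 10 ^ 5 * (1 / 2) := by
      refine (le_abs_self _).trans ?_
      rw [abs_mul]
      gcongr
      · exact abs_le.2 ⟨by linarith, by linarith⟩
      · exact abs_le.2 ⟨by linarith, by linarith⟩
    linarith
  obtain ⟨n6, n7⟩ := abs_le_of_sq_le_sq' n5 (by norm_num)
  have n8 := mul_le_mul_of_nonneg_right n4 (show 0 ≤ t by linarith)
  refine ⟨k0, -1 / 15, k, m, t0, s, t, abs_le.2 ⟨by linarith, by linarith⟩, by norm_num,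
    abs_le.2 ⟨by linarith, by linarith⟩, abs_le.2 ⟨by linarith, by linarith⟩, by linarith,
    by linarith, by linarith, by linarith, by linarith, by linarith, l0, fun x hx => ?_,
    by linarith, et.symm, fun x hx => ?_, by rw [← es, hW]⟩
  · rcases le_total x (3 / 4) with d | d
    · have := (h.bd hx).2.2.1
      have := mul_le_mul_of_nonneg_left d m0
      linarith
    · exact g2 x ⟨d, hx.2⟩
  · rw [← le_one_div (by linarith [mul_le_mul_of_nonneg_left hx.1 m0]) (hA x hx)]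
    have := g1 x hx
    rwa [hW] at this

lemma trans {u v : ℝ → ℝ} (h : Hyp u v) : ∃ U V : ℝ → ℝ, ConvexOn ℝ univ U ∧ ConvexOn ℝ univ V ∧
    (∀ x, 0 < U x) ∧ (∀ x, 0 < V x) ∧ (∀ x, 1 / U x + 1 / V x = 1 / u x + 1 / v x) ∧
    (∀ x ≤ -3 / 2, U x = u x ∧ V x = v x) ∧ ∀ x, 3 / 2 ≤ x → U x = v x ∧ V x = u x := by
  obtain ⟨k0, m0, k1, m1, t0, s, t1, hk0, hm0, hk1, hm1, a0, a1, a2, a3, a4, a5, l0, l1, e0, e1,
    hD, es⟩ := lines h
  let U : ℝ → ℝ := fun x => if x ≤ t0 then u x else if x ≤ s then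
    1 / (1 / u x + 1 / v x - 1 / (k0 + m0 * x)) else if x ≤ t1 then k1 + m1 * x else v x
  have U1 : ∀ x ≤ t0, U x = u x := fun x hx => if_pos hx
  have U2 : ∀ x ∈ Icc t0 s, U x = 1 / (1 / u x + 1 / v x - 1 / (k0 + m0 * x)) := by
    intro x hx
    rcases hx.1.eq_or_lt with rfl | c
    · rw [U1 _ le_rfl, e0]; simp
    · simp only [U]; rw [if_neg (not_le.2 c), if_pos hx.2]
  have U3 : ∀ x ∈ Icc s t1, U x = k1 + m1 * x := by
    intro x hx
    rcases hx.1.eq_or_lt with rfl | c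
    · rw [U2 _ ⟨a1.le, le_rfl⟩, es]
    · simp only [U]; rw [if_neg (by linarith), if_neg (not_le.2 c), if_pos hx.2]
  have U4 : ∀ x, t1 ≤ x → U x = v x := by
    intro x hx
    rcases hx.eq_or_lt with rfl | c
    · rw [U3 _ ⟨a4.le, le_rfl⟩, e1]
    · simp only [U]; rw [if_neg (by linarith), if_neg (by linarith), if_neg (not_le.2 c)]
  obtain ⟨cU, pU⟩ := side h hk0 hm0 hk1 hm1 a0 a1 a2 a3 a4 a5 l0 l1 e0 hD U1 U2 U3 U4
  let V : ℝ → ℝ := fun x => 1 / (1 / u x + 1 / v x - 1 / U x)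
  have V1 : ∀ x, t1 ≤ x → V x = u x := fun x hx => by simp [V, U4 x hx]
  have V4 : ∀ x ≤ t0, V x = v x := fun x hx => by simp [V, U1 x hx]
  obtain ⟨cV, pV⟩ := side (U := fun x => V (-x)) (k0 := k1) (m0 := -m1) (k1 := k0) (m1 := -m0)
    (t0 := -t1) (s := -s) (t1 := -t0) h.neg hk1 (by rw [← abs_neg]; convert hm1 using 2; ring) hk0
    (by rw [← abs_neg]; convert hm0 using 2; ring) (by linarith) (by linarith) (by linarith)
    (by linarith) (by linarith) (by linarith)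
    (fun x hx => by have := l1 (-x) ⟨by linarith [hx.2], by linarith [hx.1]⟩; linarith)
    (fun x hx => by have := l0 (-x) ⟨by linarith [hx.2], by linarith [hx.1]⟩; linarith)
    (by simpa using e1)
    (fun x hx => by
      have := hD (-x) ⟨by linarith [hx.2], by linarith [hx.1]⟩
      simp only [neg_mul, mul_neg] at this ⊢
      linarith)
    (fun x hx => V1 _ (by linarith))
    (fun x hx => by
      simp only [V]
      rw [U3 _ ⟨by linarith [hx.2], by linarith [hx.1]⟩]; simp)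
    (fun x hx => by
      simp only [V]
      rw [U2 _ ⟨by linarith [hx.2], by linarith [hx.1]⟩]; simp)
    (fun x hx => V4 _ (by linarith))
  refine ⟨U, V, cU, by simpa using neg_conv cV, pU, fun x => by simpa using pV (-x),
    fun x => by simp [V], fun x hx => ⟨U1 x (by linarith), V4 x (by linarith)⟩,
    fun x hx => ⟨U4 x (by linarith), V1 x (by linarith)⟩⟩

end Pool.Agent.H.MP_0b6b0e_gt
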