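import Pool.Agent.H.MP_0b6b0e_gt.B
import Pool.Agent.H.MP_f96441_co.A

set_option autoImplicit false
open Set Filter Topology Metric MeasureTheory
open scoped Pointwise RealInnerProductSpace

namespace Pool.Agent.H.MP_0b6b0e_gt

abbrev E := EuclideanSpace ℝ (Fin 2)

structure Gd (G : E → ℝ) : Prop where
  cont : Continuous G
  conv : ConvexOn ℝ univ G
  hom : ∀ c : ℝ, 0 ≤ c → ∀ z, G (c • z) = c * G z
  pos : ∀ z, z ≠ 0 → 0 < G z

def LS2 (G : E → ℝ) (z : E) : Prop :=
  ∃ φ : E →L[ℝ] ℝ, ∀ᶠ y in 𝓝 z, G z + φ (y - z) ≤ G y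

lemma gd_of {G : E → ℝ} (hom : ∀ c : ℝ, 0 < c → ∀ z, G (c • z) = c * G z) (h0 : G 0 = 0)
    (h : ∀ z, z ≠ 0 → ContinuousAt G z ∧ LS2 G z ∧ 0 < G z) : Gd G := by
  have hom' : ∀ c : ℝ, 0 ≤ c → ∀ z, G (c • z) = c * G z := fun c hc z => by
    rcases hc.eq_or_lt with rfl | hc
    · simp [h0]
    · exact hom c hc z
  have nn : ∀ z, 0 ≤ G z := fun z => by
    rcases eq_or_ne z 0 with rfl | hz
    · exact h0.ge
    · exact (h z hz).2.2.le
  have hc : Continuous G := by
    obtain ⟨C, hC⟩ := (isCompact_sphere (0 : E) 1).bddAbove_image (f := G) fun z hz =>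
      (h z (by rintro rfl; simp at hz)).1.continuousWithinAt
    rw [continuous_iff_continuousAt]
    intro z
    rcases eq_or_ne z 0 with rfl | hz
    · rw [ContinuousAt, h0]
      refine squeeze_zero (g := fun y : E => ‖y‖ * C) nn (fun y => ?_) ?_
      · rcases eq_or_ne y 0 with rfl | hy
        · simp [h0]
        have hn : 0 < ‖y‖ := norm_pos_iff.2 hy
        have := hom ‖y‖ hn (‖y‖⁻¹ • y)
        rw [smul_smul, mul_inv_cancel₀ hn.ne', one_smul] at this
        rw [this]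
        gcongr
        exact hC ⟨_, by simp [norm_smul, hn.ne'], rfl⟩
      · exact Continuous.tendsto' (by fun_prop) _ _ (by simp)
    · exact (h z hz).1
  refine ⟨hc, ⟨convex_univ, fun x _ y _ a b ha hb e => ?_⟩, hom', fun z hz => (h z hz).2.2⟩
  have cv : ConvexOn ℝ univ fun t : ℝ => G (x + t • (y - x)) := by
    refine lc (by fun_prop) fun t => ?_
    have : LS2 G (x + t • (y - x)) := by
      rcases eq_or_ne (x + t • (y - x)) 0 with e | hz
      · exact ⟨0, Eventually.of_forall fun y => by simp [e, h0, nn]⟩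
      · exact (h _ hz).2.1
    obtain ⟨φ, hφ⟩ := this
    refine ⟨φ (y - x), ?_⟩
    have t1 : Tendsto (fun s : ℝ => x + s • (y - x)) (𝓝 t) (𝓝 (x + t • (y - x))) :=
      Continuous.tendsto (by fun_prop) t
    filter_upwards [t1.eventually hφ] with s hs
    rw [add_sub_add_left_eq_sub, ← sub_smul, map_smul, smul_eq_mul, mul_comm] at hs
    exact hs
  have := cv.2 (mem_univ 0) (mem_univ 1) ha hb e
  simp only [smul_eq_mul, mul_zero, mul_one, zero_add, zero_smul, add_zero, one_smul,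
    add_sub_cancel] at this
  rwa [show a • x + b • y = x + b • (y - x) by rw [show a = 1 - b by linarith]; module]

lemma Gd.zero {G : E → ℝ} (h : Gd G) : G 0 = 0 := by simpa using h.hom 0 le_rfl 0

noncomputable def body {G : E → ℝ} (h : Gd G) : ConvexBody E where
  carrier := {z | G z ≤ 1}
  convex' := by simpa using h.conv.convex_le 1
  nonempty' := ⟨0, by simp [h.zero]⟩
  isCompact' := by
    obtain ⟨x, hx, hm⟩ := (isCompact_sphere (0 : E) 1).exists_isMinOn
      (NormedSpace.sphere_nonempty.2 zero_le_one) h.cont.continuousOn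
    have px := h.pos x (by rintro rfl; simp at hx)
    refine (isCompact_closedBall 0 (1 / G x)).of_isClosed_subset
      (isClosed_le h.cont continuous_const) fun y hy => ?_
    rcases eq_or_ne y 0 with rfl | h0
    · simp [px.le]
    have hn : 0 < ‖y‖ := norm_pos_iff.2 h0
    have := h.hom ‖y‖ hn.le (‖y‖⁻¹ • y)
    rw [smul_smul, mul_inv_cancel₀ hn.ne', one_smul] at this
    have m : G x ≤ G (‖y‖⁻¹ • y) := hm (by simp [norm_smul, hn.ne'])
    have hy : G y ≤ 1 := hy
    rw [mem_closedBall_zero_iff, le_div_iff₀ px]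
    nlinarith

lemma sect {G P : E → ℝ} (hG : Gd G) (hP : Gd P)
    (h : ∀ w, w ≠ 0 → 1 / G w + 1 / G (-w) = 1 / P w + 1 / P (-w)) (S : Submodule ℝ E)
    (hS : Module.finrank ℝ S = 1) (d : ℝ) :
    Measure.hausdorffMeasure d ({z | G z ≤ 1} ∩ (S : Set E)) =
      Measure.hausdorffMeasure d ({z | P z ≤ 1} ∩ (S : Set E)) := by
  obtain ⟨w, hw, hs⟩ := finrank_eq_one_iff'.1 hS
  have w0 : (w : E) ≠ 0 := by simpa using hw
  have mem : ∀ {F : E → ℝ}, Gd F → ∀ c : ℝ,
      F (c • (w : E)) ≤ 1 ↔ -(1 / F (-w)) ≤ c ∧ c ≤ 1 / F w := by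
    intro F hF c
    have p1 := hF.pos _ w0
    have p2 := hF.pos _ (neg_ne_zero.2 w0)
    rcases le_total 0 c with hc | hc
    · rw [hF.hom c hc, le_div_iff₀ p1]
      exact ⟨fun h => ⟨le_trans (by simp [p2.le]) hc, h⟩, fun h => h.2⟩
    · rw [← neg_smul_neg, hF.hom _ (neg_nonneg.2 hc), neg_le, le_div_iff₀ p2]
      exact ⟨fun h => ⟨h, hc.trans (by positivity)⟩, fun h => h.1⟩
  rw [← (IsometryEquiv.addRight ((1 / G w - 1 / P w) • (w : E))).hausdorffMeasure_image d
    ({z | P z ≤ 1} ∩ (S : Set E))]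
  congr 1
  have e := h _ w0
  ext z
  constructor
  · rintro ⟨h1, h2⟩
    obtain ⟨c, hc⟩ := hs ⟨z, h2⟩
    obtain rfl : c • (w : E) = z := congrArg Subtype.val hc
    have := (mem hG c).1 h1
    refine ⟨(c - (1 / G w - 1 / P w)) • (w : E), ⟨(mem hP _).2 ⟨by linarith [this.1],
      by linarith [this.2]⟩, S.smul_mem _ w.2⟩, ?_⟩
    simp [← add_smul]
  · rintro ⟨y, ⟨h1, h2⟩, rfl⟩
    obtain ⟨c, hc⟩ := hs ⟨y, h2⟩
    obtain rfl : c • (w : E) = y := congrArg Subtype.val hc
    have := (mem hP c).1 h1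
    show c • (w : E) + (1 / G w - 1 / P w) • (w : E) ∈ _
    rw [← add_smul]
    exact ⟨(mem hG _).2 ⟨by linarith [this.1], by linarith [this.2]⟩, S.smul_mem _ w.2⟩

lemma persp {W : ℝ → ℝ} (hW : ConvexOn ℝ univ W) (a b : E →L[ℝ] ℝ) {z : E} (hz : 0 < b z) :
    ContinuousAt (fun y => b y * W (4 * a y / b y)) z ∧ LS2 (fun y => b y * W (4 * a y / b y)) z := by
  constructor
  · have := cont hW
    fun_prop (disch := positivity)
  · obtain ⟨c, hc⟩ := sub hW (4 * a z / b z)
    refine ⟨(W (4 * a z / b z) - c * (4 * a z / b z)) • b + (4 * c) • a, ?_⟩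
    filter_upwards [continuousAt_const.eventually_lt b.continuous.continuousAt hz] with y hy
    refine le_trans (le_of_eq ?_) (mul_le_mul_of_nonneg_left (hc (4 * a y / b y)) hy.le)
    simp only [_root_.add_apply, _root_.smul_apply, map_sub, smul_eq_mul]
    field_simp
    ring

lemma chart {P : E → ℝ} (hP : Gd P) (a b : E →L[ℝ] ℝ) (e : ℝ → E)
    (he : ∀ z, b z ≠ 0 → b z • e (4 * a z / b z) = z)
    (H : Hyp (fun t => P (e t)) fun t => P (-e t)) : ∃ F : E → ℝ, F 0 = 0 ∧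
    (∀ c : ℝ, 0 < c → ∀ z, F (c • z) = c * F z) ∧ ∀ z, b z ≠ 0 →
      (ContinuousAt F z ∧ LS2 F z ∧ 0 < F z) ∧ 1 / F z + 1 / F (-z) = 1 / P z + 1 / P (-z) ∧
      (4 * a z / b z ≤ -3 / 2 → F z = P z) ∧ (3 / 2 ≤ 4 * a z / b z → F z = P (-z)) := by
  obtain ⟨U, V, cU, cV, pU, pV, hs, h1, h2⟩ := trans H
  let F : E → ℝ := fun z => if 0 < b z then b z * U (4 * a z / b z) else -b z * V (4 * a z / b z)
  have Fp : ∀ z, 0 < b z → F z = b z * U (4 * a z / b z) := fun z hz => if_pos hz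
  have Fn : ∀ z, 0 < b z → F (-z) = b z * V (4 * a z / b z) := fun z hz => by
    simp only [F, map_neg]
    rw [if_neg (by linarith), neg_neg, mul_neg, neg_div_neg_eq]
  have Pp : ∀ z, 0 < b z → P z = b z * P (e (4 * a z / b z)) := fun z hz => by
    rw [← hP.hom _ hz.le, he z hz.ne']
  have Pn : ∀ z, 0 < b z → P (-z) = b z * P (-e (4 * a z / b z)) := fun z hz => by
    rw [← hP.hom _ hz.le, smul_neg, he z hz.ne']
  have S : ∀ z, 0 < b z → 1 / F z + 1 / F (-z) = 1 / P z + 1 / P (-z) := fun z hz => by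
    rw [Fp z hz, Fn z hz, Pp z hz, Pn z hz]
    simp only [one_div, mul_inv, ← mul_add] at hs ⊢
    rw [hs]
  refine ⟨F, by simp [F], fun c hc z => ?_, fun z hz => ?_⟩
  · simp only [F, map_smul, smul_eq_mul, mul_pos_iff_of_pos_left hc]
    rw [show 4 * (c * a z) / (c * b z) = 4 * a z / b z by
      rw [mul_left_comm, mul_div_mul_left _ _ hc.ne']]
    split_ifs <;> ring
  rcases hz.lt_or_gt with hz | hz
  · obtain ⟨y, rfl⟩ : ∃ y, z = -y := ⟨-z, by simp⟩
    have hy : 0 < b y := by simpa using hz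
    have ev : F =ᶠ[𝓝 (-y)] fun x => (-b) x * V (4 * (-a) x / (-b) x) := by
      filter_upwards [b.continuous.continuousAt.eventually_lt continuousAt_const hz] with x hx
      simp only [F, _root_.neg_apply]
      rw [if_neg (by linarith), mul_neg, neg_div_neg_eq]
    obtain ⟨q1, φ, q2⟩ := persp cV (-a) (-b) (z := -y) (by simpa using hy)
    refine ⟨⟨q1.congr ev.symm, ⟨φ, ?_⟩, by rw [Fn y hy]; exact mul_pos hy (pV _)⟩, ?_, ?_, ?_⟩
    · filter_upwards [q2, ev] with x k1 k2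
      rwa [k2, ev.self_of_nhds]
    · rw [neg_neg, add_comm, S y hy, add_comm]
    · simp only [map_neg, mul_neg, neg_div_neg_eq]
      intro k
      rw [Fn y hy, (h1 _ k).2, Pn y hy]
    · simp only [map_neg, mul_neg, neg_div_neg_eq, neg_neg]
      intro k
      rw [Fn y hy, (h2 _ k).2, Pp y hy]
  · have ev : F =ᶠ[𝓝 z] fun x => b x * U (4 * a x / b x) := by
      filter_upwards [continuousAt_const.eventually_lt b.continuous.continuousAt hz] with x hx
      exact Fp x hx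
    obtain ⟨q1, φ, q2⟩ := persp cU a b hz
    refine ⟨⟨q1.congr ev.symm, ⟨φ, ?_⟩, by rw [Fp z hz]; exact mul_pos hz (pU _)⟩, S z hz,
      fun k => ?_, fun k => ?_⟩
    · filter_upwards [q2, ev] with x k1 k2
      rwa [k2, ev.self_of_nhds]
    · rw [Fp z hz, (h1 _ k).1, Pp z hz]
    · rw [Fp z hz, (h2 _ k).1, Pn z hz]

noncomputable def e1 (t : ℝ) : E := !₂[t / 4, 1]
noncomputable def e2 (t : ℝ) : E := !₂[1, t / 4]

lemma glue {P : E → ℝ} (hP : Gd P) (H1 : Hyp (fun t => P (e1 t)) fun t => P (-e1 t))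
    (H2 : Hyp (fun t => P (e2 t)) fun t => P (-e2 t)) : ∃ G : E → ℝ, Gd G ∧
    (∀ w, w ≠ 0 → 1 / G w + 1 / G (-w) = 1 / P w + 1 / P (-w)) ∧
    G (e1 2) = P (-e1 2) ∧ G (e1 (-2)) = P (e1 (-2)) := by
  obtain ⟨F1, z1, m1, h1⟩ := chart hP (EuclideanSpace.proj 0) (EuclideanSpace.proj 1) e1
    (fun z hz => by
      have hz : z 1 ≠ 0 := hz
      ext i; fin_cases i <;> simp [e1]; field_simp) H1
  obtain ⟨F2, z2, m2, h2⟩ := chart hP (EuclideanSpace.proj 1) (EuclideanSpace.proj 0) e2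
    (fun z hz => by
      have hz : z 0 ≠ 0 := hz
      ext i; fin_cases i <;> simp [e2]; field_simp) H2
  simp only [EuclideanSpace.proj, PiLp.proj_apply] at h1 h2
  have ag : ∀ z : E, |z 0| < 2 * |z 1| → |z 1| < 2 * |z 0| → F1 z = F2 z := by
    intro z k1 k2
    have n0 : z 0 ≠ 0 := fun e => by rw [e] at k2; simp at k2; linarith [abs_nonneg (z 1)]
    have n1 : z 1 ≠ 0 := fun e => by rw [e] at k1; simp at k1; linarith [abs_nonneg (z 0)]
    obtain ⟨-, -, a1, a2⟩ := h1 z n1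
    obtain ⟨-, -, b1, b2⟩ := h2 z n0
    rcases n0.lt_or_gt with p | p <;> rcases n1.lt_or_gt with q | q
    · rw [abs_of_neg p, abs_of_neg q] at k1 k2
      rw [a2 (by rw [le_div_iff_of_neg q]; linarith), b2 (by rw [le_div_iff_of_neg p]; linarith)]
    · rw [abs_of_neg p, abs_of_pos q] at k1 k2
      rw [a1 (by rw [div_le_iff₀ q]; linarith), b1 (by rw [div_le_iff_of_neg p]; linarith)]
    · rw [abs_of_pos p, abs_of_neg q] at k1 k2
      rw [a1 (by rw [div_le_iff_of_neg q]; linarith), b1 (by rw [div_le_iff₀ p]; linarith)]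
    · rw [abs_of_pos p, abs_of_pos q] at k1 k2
      rw [a2 (by rw [le_div_iff₀ q]; linarith), b2 (by rw [le_div_iff₀ p]; linarith)]
  let G : E → ℝ := fun z => if |z 0| ≤ |z 1| then F1 z else F2 z
  have G1 : ∀ z : E, |z 0| < 2 * |z 1| → G z = F1 z := fun z hz => by
    simp only [G]
    split_ifs with k
    · rfl
    · exact (ag z hz (by linarith [abs_nonneg (z 1)])).symm
  have G2 : ∀ z : E, |z 1| < 2 * |z 0| → G z = F2 z := fun z hz => by
    simp only [G]
    split_ifs with k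
    · exact ag z (by linarith [abs_nonneg (z 0), abs_nonneg (z 1)]) hz
    · rfl
  have cs : ∀ z : E, z ≠ 0 → (|z 0| < 2 * |z 1| ∧ z 1 ≠ 0) ∨ (|z 1| < 2 * |z 0| ∧ z 0 ≠ 0) := by
    intro z hz
    by_cases k : |z 0| < 2 * |z 1|
    · exact .inl ⟨k, fun e => by rw [e] at k; simp at k; linarith [abs_nonneg (z 0)]⟩
    have n0 : z 0 ≠ 0 := fun e => hz (by
      have : z 1 = 0 := by rw [e] at k; simp at k; simpa using k
      ext i; fin_cases i <;> simpa)
    exact .inr ⟨by linarith [abs_pos.2 n0], n0⟩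
  have tr : ∀ {F : E → ℝ} {z : E}, G =ᶠ[𝓝 z] F → ContinuousAt F z ∧ LS2 F z ∧ 0 < F z →
      ContinuousAt G z ∧ LS2 G z ∧ 0 < G z := by
    rintro F z ev ⟨q1, ⟨φ, q2⟩, q3⟩
    refine ⟨q1.congr ev.symm, ⟨φ, ?_⟩, by rwa [ev.self_of_nhds]⟩
    filter_upwards [q2, ev] with x k1 k2
    rwa [k2, ev.self_of_nhds]
  refine ⟨G, gd_of (fun c hc z => ?_) (by simp [G, z1]) fun z hz => ?_, fun z hz => ?_, ?_, ?_⟩
  · simp only [G, PiLp.smul_apply, smul_eq_mul, abs_mul, abs_of_pos hc,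
      mul_le_mul_iff_right₀ hc, m1 c hc, m2 c hc]
    split_ifs <;> rfl
  · rcases cs z hz with ⟨k, n⟩ | ⟨k, n⟩
    · refine tr ?_ (h1 z n).1
      filter_upwards [ContinuousAt.eventually_lt (f := fun y : E => |y 0|)
        (g := fun y : E => 2 * |y 1|) (by fun_prop) (by fun_prop) k] with y hy
      exact G1 y hy
    · refine tr ?_ (h2 z n).1
      filter_upwards [ContinuousAt.eventually_lt (f := fun y : E => |y 1|)
        (g := fun y : E => 2 * |y 0|) (by fun_prop) (by fun_prop) k] with y hy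
      exact G2 y hy
  · rcases cs z hz with ⟨k, n⟩ | ⟨k, n⟩
    · rw [G1 z k, G1 (-z) (by simpa using k), (h1 z n).2.1]
    · rw [G2 z k, G2 (-z) (by simpa using k), (h2 z n).2.1]
  · rw [G1 _ (by simp [e1]; norm_num), (h1 _ (by simp [e1])).2.2.2 (by simp [e1]; norm_num)]
  · rw [G1 _ (by simp [e1]; norm_num), (h1 _ (by simp [e1])).2.2.1 (by simp [e1]; norm_num)]

lemma complete : CompleteSpace (ConvexBody E) := by
  let g : ConvexBody E → TopologicalSpace.NonemptyCompacts E :=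
    fun K => ⟨⟨K, K.isCompact⟩, K.nonempty⟩
  have iso : Isometry g := Isometry.of_dist_eq fun _ _ => rfl
  refine IsUniformInducing.completeSpace iso.isUniformInducing (IsClosed.isComplete
    (isClosed_of_closure_subset fun S hS => ⟨⟨S, fun x hx y hy a b ha hb e => ?_,
      S.isCompact, S.nonempty⟩, rfl⟩))
  refine S.isCompact.isClosed.closure_subset (Metric.mem_closure_iff.2 fun ε ε0 => ?_)
  obtain ⟨_, ⟨K, rfl⟩, h⟩ := Metric.mem_closure_iff.1 hS _ (half_pos ε0)
  have fin := hausdorffEDist_ne_top_of_nonempty_of_bounded S.nonempty K.nonempty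
    S.isCompact.isBounded K.isBounded
  obtain ⟨x', hx', d1⟩ := exists_dist_lt_of_hausdorffDist_lt hx h fin
  obtain ⟨y', hy', d2⟩ := exists_dist_lt_of_hausdorffDist_lt hy h fin
  obtain ⟨z, hz, d3⟩ := exists_dist_lt_of_hausdorffDist_lt' (K.convex hx' hy' ha hb e) h fin
  refine ⟨z, hz, ?_⟩
  have d4 : a • (x - x') + b • (y - y') ∈ ball 0 (ε / 2) := convex_ball _ _
    (by simpa [dist_eq_norm] using d1) (by simpa [dist_eq_norm] using d2) ha hb e
  rw [mem_ball_zero_iff, show a • (x - x') + b • (y - y') =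
    a • x + b • y - (a • x' + b • y') by module, ← dist_eq_norm] at d4
  linarith [dist_triangle_right (a • x + b • y) z (a • x' + b • y')]

lemma ball_sub {A K : ConvexBody E} {r : ℝ} (hA : closedBall 0 (2 * r) ⊆ (A : Set E))
    (h : dist K A < r) : ball 0 r ⊆ (K : Set E) := by
  intro q hq
  by_contra k
  obtain ⟨w, w1, hw⟩ := H.MP_f96441_co.minor K q
  have w1 := w1 k
  have a1 := hw (q + r • w)
  have r0 : 0 ≤ r := dist_nonneg.trans h.le
  rw [add_sub_cancel_left, real_inner_smul_right, real_inner_self_eq_norm_sq, w1] at a1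
  have m : q + r • w ∈ (A : Set E) := by
    refine hA (mem_closedBall_zero_iff.2 ((norm_add_le _ _).trans ?_))
    rw [norm_smul, w1, Real.norm_of_nonneg r0]
    have := mem_ball_zero_iff.1 hq
    linarith
  have a2 := infDist_le_hausdorffDist_of_mem m (ConvexBody.hausdorffEDist_ne_top (L := K))
  rw [ConvexBody.hausdorffDist_coe, dist_comm] at a2
  linarith [infDist_nonneg (x := q) (s := (K : Set E))]

lemma baire : BaireSpace {K : ConvexBody E // (0 : E) ∈ interior (K : Set E)} := by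
  have := complete
  refine IsOpen.baireSpace (s := {K : ConvexBody E | (0 : E) ∈ interior (K : Set E)}) ?_
  refine Metric.isOpen_iff.2 fun A hA => ?_
  obtain ⟨r, r0, hr⟩ := nhds_basis_closedBall.mem_iff.1 (mem_interior_iff_mem_nhds.1 hA)
  refine ⟨r / 2, by positivity, fun K hK => mem_interior_iff_mem_nhds.2 ?_⟩
  exact mem_of_superset (ball_mem_nhds 0 (by positivity))
    (ball_sub (by rwa [mul_div_cancel₀ _ two_ne_zero]) hK)

lemma gd_gauge {K : ConvexBody E} (hK : (K : Set E) ∈ 𝓝 0) :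
    Gd (gauge (K : Set E)) ∧ {z | gauge (K : Set E) z ≤ 1} = K := by
  have ab := absorbent_nhds_zero (𝕜 := ℝ) hK
  refine ⟨⟨continuous_gauge K.convex hK, ⟨convex_univ, fun x _ y _ a b ha hb _ => ?_⟩,
    fun c hc z => gauge_smul_of_nonneg hc z, fun z hz => (gauge_pos ab
      (NormedSpace.isVonNBounded_of_isBounded ℝ K.isBounded)).2 hz⟩, ?_⟩
  · refine (gauge_add_le K.convex ab _ _).trans ?_
    rw [gauge_smul_of_nonneg ha, gauge_smul_of_nonneg hb]
  · ext z
    rw [mem_ofPred_eq, gauge_le_one_iff_mem_closure K.convex hK, K.isClosed.closure_eq]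

noncomputable def al : Fin 8 → ℝ := ![7 / 8, 0, -1, 0, -9 / 10, -9 / 10, 2 / 5, -2 / 5]
noncomputable def be : Fin 8 → ℝ := ![0, 7 / 8, 0, -1, 2 / 5, -2 / 5, -9 / 10, -9 / 10]

lemma albe (i : Fin 8) (z : E) : al i * z 0 + be i * z 1 ≤ 2 * ‖z‖ := by
  have a := abs_le.1 ((Real.norm_eq_abs _).symm.trans_le (PiLp.norm_apply_le z 0))
  have b := abs_le.1 ((Real.norm_eq_abs _).symm.trans_le (PiLp.norm_apply_le z 1))
  fin_cases i <;> simp [al, be] <;> linarith [a.1, a.2, b.1, b.2, norm_nonneg z]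

noncomputable def K0 : ConvexBody E where
  carrier := {z | ∀ i, al i * z 0 + be i * z 1 ≤ 1}
  convex' := fun x hx y hy a b ha hb e i => by
    have := mul_le_mul_of_nonneg_left (hx i) ha
    have := mul_le_mul_of_nonneg_left (hy i) hb
    simp only [PiLp.add_apply, PiLp.smul_apply, smul_eq_mul]
    linarith
  nonempty' := ⟨0, by simp⟩
  isCompact' := by
    refine (isCompact_closedBall 0 3).of_isClosed_subset ?_ fun y hy => ?_
    · rw [ofPred_forall]
      exact isClosed_iInter fun i => isClosed_le (by fun_prop) continuous_const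
    · have a := hy 0
      have b := hy 1
      have c := hy 2
      have d := hy 3
      simp [al, be] at a b c d
      rw [mem_closedBall_zero_iff, EuclideanSpace.norm_eq, Real.sqrt_le_left (by norm_num)]
      simp only [Fin.sum_univ_two, Real.norm_eq_abs, sq_abs]
      nlinarith

lemma K0_ball : closedBall 0 (2 * (1 / 4)) ⊆ (K0 : Set E) := fun z hz i => by
  have := albe i z
  have := mem_closedBall_zero_iff.1 hz
  linarith

lemma close {K : ConvexBody E} (h : dist K K0 < 1 / 10 ^ 7) :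
    (∀ z p, 0 < p → (∀ i, al i * z 0 + be i * z 1 ≤ p) →
      gauge (K : Set E) z ≤ p * (1 + 4 / 10 ^ 7)) ∧
    ∀ z i, z ≠ 0 → al i * z 0 + be i * z 1 ≤ (1 + 2 / 10 ^ 7) * gauge (K : Set E) z := by
  have hb := ball_sub K0_ball (h.trans (by norm_num))
  have hK : (K : Set E) ∈ 𝓝 0 := mem_of_superset (ball_mem_nhds 0 (by norm_num)) hb
  obtain ⟨gd, e⟩ := gd_gauge hK
  constructor
  · intro z p p0 hp
    have m : p⁻¹ • z ∈ (K0 : Set E) := fun i => by
      have := mul_le_mul_of_nonneg_left (hp i) (inv_pos.2 p0).le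
      rw [inv_mul_cancel₀ p0.ne'] at this
      simp only [PiLp.smul_apply, smul_eq_mul]
      linarith
    obtain ⟨k, hk, d⟩ := exists_dist_lt_of_hausdorffDist_lt' m h ConvexBody.hausdorffEDist_ne_top
    have a := gauge_add_le K.convex (absorbent_nhds_zero (𝕜 := ℝ) hK) k (p⁻¹ • z - k)
    have b := gauge_mono (absorbent_ball_zero (𝕜 := ℝ) (by norm_num)) hb (p⁻¹ • z - k)
    rw [gauge_ball (by norm_num), ← dist_eq_norm'] at b
    rw [add_sub_cancel, gd.hom _ (inv_pos.2 p0).le, inv_mul_le_iff₀ p0] at a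
    refine a.trans (mul_le_mul_of_nonneg_left ?_ p0.le)
    linarith [gauge_le_one_of_mem hk]
  · intro z i hz
    have p0 := gd.pos z hz
    have m : (gauge (K : Set E) z)⁻¹ • z ∈ (K : Set E) := by
      rw [← e, mem_ofPred_eq, e, gd.hom _ (inv_pos.2 p0).le, inv_mul_cancel₀ p0.ne']
    obtain ⟨k, hk, d⟩ := exists_dist_lt_of_hausdorffDist_lt m h ConvexBody.hausdorffEDist_ne_top
    have a := albe i ((gauge (K : Set E) z)⁻¹ • z - k)
    have b : al i * k 0 + be i * k 1 ≤ 1 := hk i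
    rw [← dist_eq_norm] at a
    simp only [PiLp.sub_apply, PiLp.smul_apply, smul_eq_mul] at a
    rw [mul_comm _ (gauge _ z), ← inv_mul_le_iff₀ p0]
    linarith

lemma hyp {K : ConvexBody E} (h : dist K K0 < 1 / 10 ^ 7) (e : ℝ → E) (f g : E)
    (he : ∀ t, e t = f + t • g) (h0 : ∀ t, e t ≠ 0)
    (u1 : ∀ t ∈ Icc (-2 : ℝ) 2, ∀ i, al i * e t 0 + be i * e t 1 ≤ 7 / 8)
    (u2 : ∀ t, ∃ i, al i * e t 0 + be i * e t 1 = 7 / 8)
    (v1 : ∀ t ∈ Icc (-2 : ℝ) 2, ∀ i,
      al i * (-e t) 0 + be i * (-e t) 1 ≤ max 1 (1 + (|t| - 1) / 10))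
    (v2 : ∀ t, ∃ i, al i * (-e t) 0 + be i * (-e t) 1 = max 1 (1 + (|t| - 1) / 10)) :
    Hyp (fun t => gauge (K : Set E) (e t)) fun t => gauge (K : Set E) (-e t) := by
  have hK : (K : Set E) ∈ 𝓝 0 := mem_of_superset (ball_mem_nhds 0 (by norm_num))
    (ball_sub K0_ball (h.trans (by norm_num)))
  obtain ⟨gd, -⟩ := gd_gauge hK
  obtain ⟨c1, c2⟩ := close h
  have cv : ∀ f g : E, ConvexOn ℝ univ fun t : ℝ => gauge (K : Set E) (f + t • g) := by
    refine fun f g => ⟨convex_univ, fun x _ y _ a b ha hb e => ?_⟩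
    have := gd.conv.2 (mem_univ (f + x • g)) (mem_univ (f + y • g)) ha hb e
    rwa [show a • (f + x • g) + b • (f + y • g) = f + (a • x + b • y) • g by
      rw [show a = 1 - b by linarith]; simp only [smul_eq_mul]; module] at this
  refine ⟨by simpa only [he] using cv f g, by simpa only [he, neg_add, smul_neg] using cv (-f) (-g),
    fun t => gd.pos _ (h0 t), fun t => gd.pos _ (neg_ne_zero.2 (h0 t)), fun t ht => ?_,
    fun t ht => ?_⟩
  · have a := c1 _ _ (by norm_num) (u1 t ht)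
    obtain ⟨i, hi⟩ := u2 t
    have b := c2 _ i (h0 t)
    exact abs_le.2 ⟨by linarith, by linarith⟩
  · have a := c1 _ _ (lt_of_lt_of_le one_pos (le_max_left _ _)) (v1 t ht)
    obtain ⟨i, hi⟩ := v2 t
    have b := c2 _ i (neg_ne_zero.2 (h0 t))
    have c : max 1 (1 + (|t| - 1) / 10) ≤ 11 / 10 :=
      max_le (by norm_num) (by linarith [abs_le.2 ht])
    exact abs_le.2 ⟨by linarith, by linarith⟩

lemma hyp1 {K : ConvexBody E} (h : dist K K0 < 1 / 10 ^ 7) :
    Hyp (fun t => gauge (K : Set E) (e1 t)) fun t => gauge (K : Set E) (-e1 t) := by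
  refine hyp h e1 !₂[0, 1] !₂[1 / 4, 0] (fun t => ?_) (fun t k => ?_) (fun t ht i => ?_)
    (fun t => ⟨1, by simp [al, be, e1]⟩) (fun t ht i => ?_) fun t => ?_
  · ext i; fin_cases i <;> simp [e1]; ring
  · simpa [e1] using congrArg (fun z : E => z 1) k
  · fin_cases i <;> simp [al, be, e1] <;> linarith [ht.1, ht.2]
  · have := le_max_left 1 (1 + (|t| - 1) / 10)
    have := le_max_right 1 (1 + (|t| - 1) / 10)
    generalize max 1 (1 + (|t| - 1) / 10) = M at *
    fin_cases i <;> simp [al, be, e1] <;> linarith [ht.1, ht.2, le_abs_self t, neg_abs_le t]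
  · rcases le_total (1 + (|t| - 1) / 10) 1 with k | k
    · exact ⟨3, by rw [max_eq_left k]; simp [al, be, e1]⟩
    rw [max_eq_right k]
    rcases abs_cases t with ⟨k, -⟩ | ⟨k, -⟩
    · exact ⟨7, by simp [al, be, e1, k]; ring⟩
    · exact ⟨6, by simp [al, be, e1, k]; ring⟩

lemma hyp2 {K : ConvexBody E} (h : dist K K0 < 1 / 10 ^ 7) :
    Hyp (fun t => gauge (K : Set E) (e2 t)) fun t => gauge (K : Set E) (-e2 t) := by
  refine hyp h e2 !₂[1, 0] !₂[0, 1 / 4] (fun t => ?_) (fun t k => ?_) (fun t ht i => ?_)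
    (fun t => ⟨0, by simp [al, be, e2]⟩) (fun t ht i => ?_) fun t => ?_
  · ext i; fin_cases i <;> simp [e2]; ring
  · simpa [e2] using congrArg (fun z : E => z 0) k
  · fin_cases i <;> simp [al, be, e2] <;> linarith [ht.1, ht.2]
  · have := le_max_left 1 (1 + (|t| - 1) / 10)
    have := le_max_right 1 (1 + (|t| - 1) / 10)
    generalize max 1 (1 + (|t| - 1) / 10) = M at *
    fin_cases i <;> simp [al, be, e2] <;> linarith [ht.1, ht.2, le_abs_self t, neg_abs_le t]
  · rcases le_total (1 + (|t| - 1) / 10) 1 with k | k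
    · exact ⟨2, by rw [max_eq_left k]; simp [al, be, e2]⟩
    rw [max_eq_right k]
    rcases abs_cases t with ⟨k, -⟩ | ⟨k, -⟩
    · exact ⟨5, by simp [al, be, e2, k]; ring⟩
    · exact ⟨4, by simp [al, be, e2, k]; ring⟩

lemma main {K : ConvexBody E} (h : dist K K0 < 1 / 10 ^ 7) : ∃ L : ConvexBody E,
    (0 : E) ∈ interior (L : Set E) ∧ (L : Set E) ≠ (K : Set E) ∧ (L : Set E) ≠ -(K : Set E) ∧
    ∀ S : Submodule ℝ E, Module.finrank ℝ S = 1 → ∀ d : ℝ,
      Measure.hausdorffMeasure d ((L : Set E) ∩ (S : Set E)) =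
        Measure.hausdorffMeasure d ((K : Set E) ∩ (S : Set E)) := by
  have hK : (K : Set E) ∈ 𝓝 0 := mem_of_superset (ball_mem_nhds 0 (by norm_num))
    (ball_sub K0_ball (h.trans (by norm_num)))
  obtain ⟨gd, e⟩ := gd_gauge hK
  have H := hyp1 h
  obtain ⟨G, hG, hs, g1, g2⟩ := glue gd H (hyp2 h)
  obtain ⟨-, a1, -, a2, -⟩ := H.bd (x := 2) ⟨by norm_num, le_rfl⟩
  obtain ⟨-, b1, -, -, b2, -⟩ := H.bd (x := -2) ⟨le_rfl, by norm_num⟩
  refine ⟨body hG, mem_interior_iff_mem_nhds.2 ?_, fun k => ?_, fun k => ?_, fun S hS d => ?_⟩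
  · exact mem_of_superset ((isOpen_lt hG.cont continuous_const).mem_nhds
      (show G 0 < 1 by simp [hG.zero])) fun z hz => show G z ≤ 1 from le_of_lt hz
  · have : e1 2 ∈ (K : Set E) := by rw [← e]; exact a1.trans (by norm_num)
    rw [← k] at this
    have : G (e1 2) ≤ 1 := this
    linarith
  · have : e1 (-2) ∈ (body hG : Set E) := g2.trans_le (b1.trans (by norm_num))
    rw [k] at this
    have := gauge_le_one_of_mem (mem_neg.1 this)
    linarith
  · have := sect hG gd hs S hS d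
    rwa [e] at this

end Pool.Agent.H.MP_0b6b0e_gt
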